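import Pool.Agent.Work.MP_ef7f46_tn.Interface

set_option autoImplicit false
open Classical Finset

noncomputable section

namespace TN

namespace EXI

variable {Q Λ : Type} [Fintype Q] [Fintype Λ]

/-- the number of functions with a bad batch -/
theorem card_batch {Q : Type} [Fintype Q] (m b : ℕ) (i : Fin m) (P : (Fin b → Q) → Prop) :
    (univ.filter (fun z : Fin m × Fin b → Q => P (fun j => z (i, j)))).card =
      (univ.filter P).card * Fintype.card Q ^ ((m - 1) * b) := by
  have e1 : (univ.filter (fun z : Fin m × Fin b → Q => P (fun j => z (i, j)))).card =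
      (univ.filter (fun g : Fin m → Fin b → Q => P (g i))).card := by
    refine Finset.card_bij (fun z _ => fun a j => z (a, j)) ?_ ?_ ?_
    · intro z hz
      have := (Finset.mem_filter.1 hz).2
      exact Finset.mem_filter.2 ⟨Finset.mem_univ _, this⟩
    · intro z _ z' _ h
      funext p
      exact congrFun (congrFun h p.1) p.2
    · intro g hg
      refine ⟨fun p => g p.1 p.2, ?_, rfl⟩
      exact Finset.mem_filter.2 ⟨Finset.mem_univ _, (Finset.mem_filter.1 hg).2⟩
  have e2 : (univ.filter (fun g : Fin m → Fin b → Q => P (g i))) =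
      Fintype.piFinset (fun a : Fin m => if a = i then univ.filter P else univ) := by
    ext g
    simp only [Finset.mem_filter, Finset.mem_univ, true_and, Fintype.mem_piFinset]
    constructor
    · intro h a
      by_cases ha : a = i
      · subst ha
        simpa using h
      · simp [ha]
    · intro h
      simpa using h i
  rw [e1, e2, Fintype.card_piFinset, ← Finset.mul_prod_erase _ _ (Finset.mem_univ i)]
  simp only [if_true]
  congr 1
  have e3 : ∀ a ∈ univ.erase i, (if a = i then univ.filter P else univ : Finset (Fin b → Q)).card =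
      Fintype.card Q ^ b := by
    intro a ha
    rw [if_neg (Finset.ne_of_mem_erase ha), Finset.card_univ, Fintype.card_fun, Fintype.card_fin]
  rw [Finset.prod_congr rfl e3, Finset.prod_const, Finset.card_erase_of_mem (Finset.mem_univ i),
    Finset.card_univ, Fintype.card_fin, ← pow_mul, mul_comm]

/-- the number of functions with some bad batch -/
theorem card_batch_le {Q : Type} [Fintype Q] (m b : ℕ) (P : (Fin b → Q) → Prop) :
    (univ.filter (fun z : Fin m × Fin b → Q => ∃ i, P (fun j => z (i, j)))).card ≤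
      m * ((univ.filter P).card * Fintype.card Q ^ ((m - 1) * b)) := by
  have h1 : (univ.filter (fun z : Fin m × Fin b → Q => ∃ i, P (fun j => z (i, j)))).card ≤
      ∑ i : Fin m, (univ.filter (fun z : Fin m × Fin b → Q => P (fun j => z (i, j)))).card := by
    refine le_trans (Finset.card_le_card ?_) Finset.card_biUnion_le
    intro z hz
    obtain ⟨i, hi⟩ := (Finset.mem_filter.1 hz).2
    exact Finset.mem_biUnion.2 ⟨i, Finset.mem_univ _,
      Finset.mem_filter.2 ⟨Finset.mem_univ _, hi⟩⟩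
  refine h1.trans (le_of_eq ?_)
  rw [Finset.sum_congr rfl (fun i _ => card_batch m b i P)]
  rw [Finset.sum_const, Finset.card_univ, Fintype.card_fin, smul_eq_mul]

end EXI

theorem exi_ok (h1 : Stmt_DMC) (h2 : Stmt_CE1) (h3 : Stmt_CE2) (h4 : Stmt_TYM) (h5 : Stmt_TYS)
    (h6 : Stmt_TYP) (h7 : Stmt_TYL) (h8 : Stmt_TYR) : Stmt_EXI := by
  intro Q Λ _ _ X hX hN
  have hqpos : 0 < qq X := by
    unfold qq
    have h1 : (0 : ℝ) < X.N := by exact_mod_cast hX.lin.Npos
    have h2 : (0 : ℝ) < X.M := by exact_mod_cast hX.lin.Mpos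
    positivity
  have hcQ : (Fintype.card Q : ℝ) = qq X := by
    rw [hX.lin.cardQ]
    unfold qq
    push_cast
    rfl
  have hlam1 : (1 : ℝ) ≤ X.lam := by
    have := hX.lampos
    exact_mod_cast this
  have heps1 : X.eps ≤ 1 := by
    have he := hN.err1
    have hRc : 1 ≤ Rc X := by
      unfold Rc
      have h1 : 1 ≤ Real.exp X.lam := Real.one_le_exp (by linarith)
      have h2 : 1 ≤ X.C + X.lam + 2 := by
        have := hX.Cpos
        linarith
      calc (1 : ℝ) = 1 * 1 := (one_mul 1).symm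
        _ ≤ _ := mul_le_mul h2 h1 zero_le_one (by linarith)
    have h3 : 1 ≤ (X.lam : ℝ) * Rc X := by
      calc (1 : ℝ) = 1 * 1 := (one_mul 1).symm
        _ ≤ _ := mul_le_mul hlam1 hRc zero_le_one (by linarith)
    have h4 : X.eps ≤ X.tau + X.eta + X.eps := by
      have := hX.taupos
      have := hX.etapos
      linarith
    have h5 : 0 ≤ X.tau + X.eta + X.eps := by
      have := hX.taupos
      have := hX.etapos
      have := hX.epspos
      linarith
    have h6 : X.tau + X.eta + X.eps ≤ (X.lam : ℝ) * Rc X * (X.tau + X.eta + X.eps) :=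
      le_mul_of_one_le_left h5 h3
    linarith
  set n := X.lam * X.M with hn
  have hn' : X.m * X.b = n := hX.mb
  have hqn : 0 < qq X ^ n := pow_pos hqpos n
  -- the bad sets
  set Bd : Finset (Pos X → Q) := univ.filter (fun z : Pos X → Q =>
    ∃ i : Fin X.m, ¬ ∀ J : Finset (Fin X.b), ∃ g, IsDM X (fun j => z (i, j)) J g) with hBd
  have hBdc : (Bd.card : ℝ) ≤ 1 / 10 * qq X ^ n := by
    obtain ⟨R, hR1, hR2⟩ := hN.dense
    have hdmc := h1 Q Λ X hX R heps1 hR1
    set P : (Fin X.b → Q) → Prop := fun β => ¬ ∀ J : Finset (Fin X.b), ∃ g, IsDM X β J g with hP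
    have hle : Bd.card ≤ X.m * ((univ.filter P).card * Fintype.card Q ^ ((X.m - 1) * X.b)) := by
      rw [hBd]
      convert EXI.card_batch_le X.m X.b P
    have hle' : (Bd.card : ℝ) ≤
        X.m * (((univ.filter P).card : ℝ) * (qq X) ^ ((X.m - 1) * X.b)) := by
      rw [← hcQ]
      exact_mod_cast hle
    refine hle'.trans ?_
    have hsplit : qq X ^ n = qq X ^ X.b * qq X ^ ((X.m - 1) * X.b) := by
      rw [← pow_add, ← hn']
      congr 1
      obtain ⟨m', hm'⟩ : ∃ m', X.m = m' + 1 := ⟨X.m - 1, by have := hX.mpos; omega⟩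
      rw [hm']
      simp only [Nat.add_sub_cancel]
      ring
    calc (X.m : ℝ) * (((univ.filter P).card : ℝ) * (qq X) ^ ((X.m - 1) * X.b))
        ≤ X.m * (((2 * (X.net.card : ℝ)) ^ R * Real.exp (-(X.b * X.eps ^ 2 / 16)) *
            qq X ^ X.b) * (qq X) ^ ((X.m - 1) * X.b)) := by
          refine mul_le_mul_of_nonneg_left ?_ (Nat.cast_nonneg _)
          refine mul_le_mul_of_nonneg_right ?_ (by positivity)
          exact hdmc
      _ = X.m * ((2 * (X.net.card : ℝ)) ^ R * Real.exp (-(X.b * X.eps ^ 2 / 16))) *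
            qq X ^ n := by
          rw [hsplit]
          ring
      _ ≤ 1 / 10 * qq X ^ n := mul_le_mul_of_nonneg_right hR2 hqn.le
  have hce1 := h2 Q Λ X hX hN.exc
  have hce2 := h3 Q Λ X hX hN.exc
  have htym := h4 Q Λ X hX
  have htys := h5 Q Λ X hX
  have htyp := h6 Q Λ X hX
  have htyl := h7 Q Λ X hX
  have htyr := h8 Q Λ X hX
  set B1 : Finset (Pos X → Q) := univ.filter (fun z : Pos X → Q => ∃ I : Finset (Pos X),
      (X.M : ℝ) / 100 < ((bad1 X z I).card : ℝ)) with hB1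
  set B2 : Finset (Pos X → Q) := univ.filter (fun z : Pos X → Q => ∃ I J : Finset (Pos X),
      (X.M : ℝ) / 100 < ((bad2 X z I J).card : ℝ)) with hB2
  set B3 : Finset (Pos X → Q) := univ.filter (fun z : Pos X → Q =>
      ¬ ∑ i : Fin X.m, ∑ ℓ, ((pc X (fun j => z (i, j)) ℓ).choose 2 : ℝ)
        ≤ 5 * (X.lam : ℝ) ^ 2 / X.m * qq X) with hB3
  set B4 : Finset (Pos X → Q) := univ.filter (fun z : Pos X → Q =>
      ¬ ∑ i : Fin X.m, ∑ y, (∑ j, chi X.inc y (z (i, j))) ^ 2
        ≤ 10 * (2 * X.lam / X.N + (X.lam : ℝ) ^ 2 / X.m) * X.N ^ 2 * qq X) with hB4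
  set B5 : Finset (Pos X → Q) := univ.filter (fun z : Pos X → Q =>
      ¬ ((univ.filter (fun ℓ => (pz X z ℓ : ℝ) ≤ X.lam / 8)).card : ℝ)
        ≤ 10 * Real.exp (-(3 / 5 * (X.lam : ℝ))) * qq X) with hB5
  set B6 : Finset (Pos X → Q) := univ.filter (fun z : Pos X → Q =>
      ¬ ((univ.filter (fun ℓ => ∃ p p', p ≠ p' ∧ z p = z p' ∧ z p ∈ X.inc ℓ)).card : ℝ)
        ≤ 5 * (X.lam : ℝ) ^ 2 / X.N * qq X) with hB6
  set B7 : Finset (Pos X → Q) := univ.filter (fun z : Pos X → Q =>
      ¬ ((univ.filter (fun p => ∃ p', p' ≠ p ∧ z p = z p')).card : ℝ)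
        ≤ 10 * (X.lam : ℝ) / X.N * (X.lam * X.M)) with hB7
  have hun := hN.union
  have hB12 : (B1.card : ℝ) + B2.card ≤ 1 / 10 * qq X ^ n := by
    calc (B1.card : ℝ) + B2.card ≤ (4 : ℝ) ^ (X.lam * X.M) * X.del ^ ((X.M : ℝ) / 100) *
          qq X ^ (X.lam * X.M) + (8 : ℝ) ^ (X.lam * X.M) * X.del ^ ((X.M : ℝ) / 100) *
          qq X ^ (X.lam * X.M) := add_le_add hce1 hce2
      _ = ((4 : ℝ) ^ (X.lam * X.M) * X.del ^ ((X.M : ℝ) / 100) +
          (8 : ℝ) ^ (X.lam * X.M) * X.del ^ ((X.M : ℝ) / 100)) * qq X ^ n := by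
          rw [hn]
          ring
      _ ≤ 1 / 10 * qq X ^ n := mul_le_mul_of_nonneg_right hun hqn.le
  have hall : ((Bd ∪ B1 ∪ B2 ∪ B3 ∪ B4 ∪ B5 ∪ B6 ∪ B7).card : ℝ) < qq X ^ n := by
    have hc : (Bd ∪ B1 ∪ B2 ∪ B3 ∪ B4 ∪ B5 ∪ B6 ∪ B7).card ≤
        Bd.card + B1.card + B2.card + B3.card + B4.card + B5.card + B6.card + B7.card := by
      refine (Finset.card_union_le _ _).trans (Nat.add_le_add_right ?_ _)
      refine (Finset.card_union_le _ _).trans (Nat.add_le_add_right ?_ _)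
      refine (Finset.card_union_le _ _).trans (Nat.add_le_add_right ?_ _)
      refine (Finset.card_union_le _ _).trans (Nat.add_le_add_right ?_ _)
      refine (Finset.card_union_le _ _).trans (Nat.add_le_add_right ?_ _)
      refine (Finset.card_union_le _ _).trans (Nat.add_le_add_right ?_ _)
      exact Finset.card_union_le _ _
    have hc' : ((Bd ∪ B1 ∪ B2 ∪ B3 ∪ B4 ∪ B5 ∪ B6 ∪ B7).card : ℝ) ≤
        Bd.card + B1.card + B2.card + B3.card + B4.card + B5.card + B6.card + B7.card := by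
      exact_mod_cast hc
    refine lt_of_le_of_lt hc' ?_
    linarith
  have hcard : (Fintype.card (Pos X → Q) : ℝ) = qq X ^ n := by
    rw [Fintype.card_fun, Fintype.card_prod, Fintype.card_fin, Fintype.card_fin, hn']
    push_cast
    rw [hcQ]
  obtain ⟨z, hz⟩ : ∃ z, z ∉ Bd ∪ B1 ∪ B2 ∪ B3 ∪ B4 ∪ B5 ∪ B6 ∪ B7 := by
    by_contra hcon
    push Not at hcon
    have heq : Bd ∪ B1 ∪ B2 ∪ B3 ∪ B4 ∪ B5 ∪ B6 ∪ B7 = univ := Finset.eq_univ_of_forall hcon
    rw [heq, Finset.card_univ, hcard] at hall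
    exact lt_irrefl _ hall
  simp only [Finset.mem_union, not_or] at hz
  obtain ⟨⟨⟨⟨⟨⟨⟨z0, z1⟩, z2⟩, z3⟩, z4⟩, z5⟩, z6⟩, z7⟩ := hz
  refine ⟨z, ⟨?_, ?_, ?_, ?_, ?_, ?_⟩, ⟨?_, ?_⟩⟩
  · by_contra hcon
    rw [hBd, Finset.mem_filter] at z0
    refine z0 ⟨Finset.mem_univ _, ?_⟩
    by_contra h'
    push Not at h'
    exact hcon h'
  · by_contra hcon
    exact z3 (Finset.mem_filter.2 ⟨Finset.mem_univ _, hcon⟩)
  · by_contra hcon
    exact z4 (Finset.mem_filter.2 ⟨Finset.mem_univ _, hcon⟩)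
  · by_contra hcon
    exact z5 (Finset.mem_filter.2 ⟨Finset.mem_univ _, hcon⟩)
  · by_contra hcon
    exact z6 (Finset.mem_filter.2 ⟨Finset.mem_univ _, hcon⟩)
  · by_contra hcon
    exact z7 (Finset.mem_filter.2 ⟨Finset.mem_univ _, hcon⟩)
  · intro I
    by_contra hcon
    exact z1 (Finset.mem_filter.2 ⟨Finset.mem_univ _, ⟨I, not_le.1 hcon⟩⟩)
  · intro I J
    by_contra hcon
    exact z2 (Finset.mem_filter.2 ⟨Finset.mem_univ _, ⟨I, J, not_le.1 hcon⟩⟩)

end TN
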