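import Pool.Agent.Work.MP_ef7f46_tn.Interface

set_option autoImplicit false
open Classical Finset

noncomputable section

namespace TN

namespace NET

variable {Q Λ : Type} [Fintype Q] [Fintype Λ] (inc : Λ → Finset Q)

omit [Fintype Q] in
theorem dg_sub (w w' : Λ → ℝ) (y : Q) : dg inc (w - w') y = dg inc w y - dg inc w' y := by
  unfold dg
  rw [← Finset.sum_sub_distrib]
  refine Finset.sum_congr rfl fun ℓ _ => ?_
  split_ifs <;> simp

/-- an orthonormal family has at most `|Q|` members -/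
theorem card_le {r : ℕ} (u : Fin r → Q → ℝ)
    (hu : ∀ i j, ∑ y, u i y * u j y = if i = j then 1 else 0) : r ≤ Fintype.card Q := by
  have hli : LinearIndependent ℝ u := by
    rw [Fintype.linearIndependent_iff]
    intro g hg j
    have h1 : ∑ y, (∑ i, g i • u i) y * u j y = 0 := by
      rw [hg]
      simp
    have h2 : ∑ y, (∑ i, g i • u i) y * u j y = ∑ i, g i * ∑ y, u i y * u j y := by
      simp only [Finset.sum_apply, Pi.smul_apply, smul_eq_mul, Finset.sum_mul]
      rw [Finset.sum_comm]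
      refine Finset.sum_congr rfl fun i _ => ?_
      rw [Finset.mul_sum]
      exact Finset.sum_congr rfl fun y _ => by ring
    rw [h2] at h1
    simpa [hu] using h1
  have := hli.fintype_card_le_finrank
  simpa using this

end NET

theorem net_ok (h1 : Stmt_SPEC) (h2 : Stmt_LCARD) : Stmt_NET := by
  intro Q Λ _ _ inc N M hL Θ K hΘ hK
  obtain ⟨r, u, hu, hr, hspec⟩ := h1 Q Λ inc N M hL Θ hΘ
  obtain ⟨hΛ, -, hdg0, hdgR⟩ := h2 Q Λ inc N M hL
  have hN : (0 : ℝ) < N := by exact_mod_cast hL.Npos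
  have hM : (0 : ℝ) < M := by exact_mod_cast hL.Mpos
  have hK' : (0 : ℝ) < K := by exact_mod_cast hK
  set q : ℝ := (N : ℝ) * M with hq
  have hq0 : 0 < q := by positivity
  have hcQ : (Fintype.card Q : ℝ) = q := by
    rw [hL.cardQ]
    push_cast
    rfl
  set B : ℝ := N * Real.sqrt q with hB
  have hsq : 0 < Real.sqrt q := Real.sqrt_pos.2 hq0
  have hB0 : 0 < B := by positivity
  have hBsq : B ^ 2 = N ^ 2 * q := by
    rw [hB, mul_pow, Real.sq_sqrt hq0.le]
  let c : (Λ → ℝ) → Fin r → ℝ := fun w i => ∑ y, u i y * dg inc w y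
  have hc : ∀ w, U01 w → ∀ i, |c w i| ≤ B := by
    intro w hw i
    have hcs : (∑ y, u i y * dg inc w y) ^ 2 ≤ (∑ y, u i y ^ 2) * ∑ y, dg inc w y ^ 2 :=
      Finset.sum_mul_sq_le_sq_mul_sq _ _ _
    have hui : ∑ y, u i y ^ 2 = 1 := by
      have := hu i i
      simp only [if_true] at this
      rw [← this]
      exact Finset.sum_congr rfl fun y _ => by ring
    have hd : ∑ y, dg inc w y ^ 2 ≤ q * N ^ 2 := by
      calc ∑ y, dg inc w y ^ 2 ≤ ∑ _y : Q, (N : ℝ) ^ 2 := by
            refine Finset.sum_le_sum fun y _ => ?_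
            have h3 := hdg0 w (fun ℓ => (hw ℓ).1) y
            have h4 := hdgR w 1 hw y
            rw [mul_one] at h4
            exact pow_le_pow_left₀ h3 h4 2
        _ = q * N ^ 2 := by
            rw [Finset.sum_const, Finset.card_univ, nsmul_eq_mul, hcQ]
    rw [hui, one_mul] at hcs
    refine abs_le_of_sq_le_sq ?_ hB0.le
    rw [hBsq]
    calc c w i ^ 2 ≤ ∑ y, dg inc w y ^ 2 := hcs
      _ ≤ q * N ^ 2 := hd
      _ = N ^ 2 * q := by ring
  let code : (Λ → ℝ) → Fin r → ℤ := fun w i => ⌊c w i * K / B⌋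
  have hcode : ∀ w, U01 w → code w ∈ Fintype.piFinset (fun _ : Fin r => Finset.Icc (-(K : ℤ)) K) := by
    intro w hw
    rw [Fintype.mem_piFinset]
    intro i
    rw [Finset.mem_Icc]
    have h3 := abs_le.1 (hc w hw i)
    constructor
    · refine Int.le_floor.2 ?_
      push_cast
      rw [le_div_iff₀ hB0]
      nlinarith [h3.1]
    · have h4 : c w i * K / B ≤ K := by
        rw [div_le_iff₀ hB0]
        nlinarith [h3.2]
      have h5 : (⌊c w i * K / B⌋ : ℝ) ≤ (K : ℝ) := (Int.floor_le _).trans h4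
      exact_mod_cast h5
  let pick : (Fin r → ℤ) → (Λ → ℝ) := fun κ =>
    if h : ∃ w, U01 w ∧ code w = κ then h.choose else 0
  refine ⟨(Fintype.piFinset (fun _ : Fin r => Finset.Icc (-(K : ℤ)) K)).image pick, ?_, ?_, ?_⟩
  · intro w hw
    obtain ⟨κ, -, rfl⟩ := Finset.mem_image.1 hw
    by_cases h : ∃ w, U01 w ∧ code w = κ
    · have e : pick κ = h.choose := dif_pos h
      rw [e]
      exact h.choose_spec.1
    · have e : pick κ = 0 := dif_neg h
      rw [e]
      intro ℓ
      simp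
  · have h3 : ((Fintype.piFinset (fun _ : Fin r => Finset.Icc (-(K : ℤ)) K)).image pick).card ≤
        (2 * K + 1) ^ r := by
      refine Finset.card_image_le.trans ?_
      rw [Fintype.card_piFinset]
      simp only [Int.card_Icc, Finset.prod_const, Finset.card_univ, Fintype.card_fin]
      refine le_of_eq ?_
      congr 1
      omega
    calc (((Fintype.piFinset (fun _ : Fin r => Finset.Icc (-(K : ℤ)) K)).image pick).card : ℝ)
        ≤ (((2 * K + 1) ^ r : ℕ) : ℝ) := by exact_mod_cast h3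
      _ = ((2 : ℝ) * K + 1) ^ (r : ℝ) := by
          rw [Real.rpow_natCast]
          push_cast
          rfl
      _ ≤ ((2 : ℝ) * K + 1) ^ ((2 : ℝ) * (N * M) * N ^ 2 / Θ ^ 2) := by
          refine Real.rpow_le_rpow_of_exponent_le ?_ hr
          linarith
  · intro w hw
    have h : ∃ w', U01 w' ∧ code w' = code w := ⟨w, hw, rfl⟩
    refine ⟨pick (code w), Finset.mem_image_of_mem _ (hcode w hw), ?_⟩
    have e : pick (code w) = h.choose := dif_pos h
    obtain ⟨hw', hcw⟩ := h.choose_spec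
    rw [← e] at hw' hcw
    set w' := pick (code w) with hw'def
    have hs := hspec (w - w')
    have hdiff : ∀ i, (∑ y, u i y * dg inc (w - w') y) ^ 2 ≤ B ^ 2 / K ^ 2 := by
      intro i
      have h3 : ∑ y, u i y * dg inc (w - w') y = c w i - c w' i := by
        simp only [c, NET.dg_sub, mul_sub, Finset.sum_sub_distrib]
      rw [h3]
      have h4 : ⌊c w' i * K / B⌋ = ⌊c w i * K / B⌋ := congrFun hcw i
      have h5 : |c w' i * K / B - c w i * K / B| < 1 := Int.abs_sub_lt_one_of_floor_eq_floor h4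
      have h6 : (c w i - c w' i) ^ 2 * (K / B) ^ 2 ≤ 1 := by
        have h7 : (c w i - c w' i) ^ 2 * (K / B) ^ 2 = |c w' i * K / B - c w i * K / B| ^ 2 := by
          rw [sq_abs]
          ring
        rw [h7]
        exact pow_le_one₀ (abs_nonneg _) h5.le
      rw [div_pow, ← mul_div_assoc, div_le_one (by positivity)] at h6
      rw [le_div_iff₀ (by positivity)]
      exact h6
    have hsum : ∑ i, (∑ y, u i y * dg inc (w - w') y) ^ 2 ≤ q * (B ^ 2 / K ^ 2) := by
      calc ∑ i, (∑ y, u i y * dg inc (w - w') y) ^ 2 ≤ ∑ _i : Fin r, B ^ 2 / K ^ 2 :=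
            Finset.sum_le_sum fun i _ => hdiff i
        _ = r * (B ^ 2 / K ^ 2) := by
            rw [Finset.sum_const, Finset.card_univ, Fintype.card_fin, nsmul_eq_mul]
        _ ≤ q * (B ^ 2 / K ^ 2) := by
            refine mul_le_mul_of_nonneg_right ?_ (by positivity)
            rw [← hcQ]
            exact_mod_cast NET.card_le u hu
    have hw2 : ∑ ℓ, ((w - w') ℓ) ^ 2 ≤ q := by
      calc ∑ ℓ, ((w - w') ℓ) ^ 2 ≤ ∑ _ℓ : Λ, (1 : ℝ) := by
            refine Finset.sum_le_sum fun ℓ _ => ?_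
            have h3 := hw ℓ
            have h4 := hw' ℓ
            rw [Pi.sub_apply]
            nlinarith [h3.1, h3.2, h4.1, h4.2]
        _ = Fintype.card Λ := by simp
        _ ≤ q := hΛ
    have hfin : ∑ y, (dg inc w y - dg inc w' y) ^ 2 = ∑ y, (dg inc (w - w') y) ^ 2 :=
      Finset.sum_congr rfl fun y _ => by rw [NET.dg_sub]
    rw [hfin]
    calc ∑ y, (dg inc (w - w') y) ^ 2
        ≤ Θ * ∑ ℓ, ((w - w') ℓ) ^ 2 + ∑ i, (∑ y, u i y * dg inc (w - w') y) ^ 2 := by
          linarith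
      _ ≤ Θ * q + q * (B ^ 2 / K ^ 2) :=
          add_le_add (mul_le_mul_of_nonneg_left hw2 hΘ.le) hsum
      _ = Θ * (N * M) + ((N : ℝ) * M) ^ 2 * N ^ 2 / K ^ 2 := by
          rw [hBsq]
          ring

end TN
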